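import Pool.Agent.Helper5.SR.St1

/-!
# Project SR (MP_d6acc2_an), module HYP: comparison of the derivative at points of bounded
hyperbolic distance
-/

set_option autoImplicit false

namespace Pool.Agent.Helper29.SR

open Complex Metric Helper5.SR Pool.Agent.Helper51.LT

/-- one step -/
theorem hyp_step (hD3 : StD3) (K : ℂ → ℂ) (z w : ℂ) (d : ℝ) (hK : Un K (ball 0 1)) (hd : 0 < d)
    (hz : d ≤ 1 - ‖z‖) (hzw : ‖w - z‖ ≤ d / 4) : ‖deriv K w‖ ≤ 4 * ‖deriv K z‖ := by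
  have hsub : ball z d ⊆ ball (0 : ℂ) 1 := by
    intro y hy
    rw [mem_ball_zero_iff]
    rw [mem_ball_iff_norm] at hy
    calc ‖y‖ = ‖(y - z) + z‖ := by rw [sub_add_cancel]
      _ ≤ ‖y - z‖ + ‖z‖ := norm_add_le _ _
      _ < 1 := by linarith
  have hU : Un K (ball z d) := ⟨hK.1.mono hsub, hK.2.mono hsub⟩
  have h1 := (hD3 K z w d hd hU (by linarith)).1
  have h2 : (3 / 4 * d) ^ 4 ≤ (d - ‖w - z‖) ^ 4 :=
    pow_le_pow_left₀ (by positivity) (by linarith) 4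
  have h3 : (3 / 4 * d) ^ 4 * ‖deriv K w‖ ≤ d ^ 4 * ‖deriv K z‖ :=
    le_trans (mul_le_mul_of_nonneg_right h2 (norm_nonneg _)) h1
  have h4 : 0 < d ^ 4 := by positivity
  have h5 : d ^ 4 * ((3 / 4) ^ 4 * ‖deriv K w‖) ≤ d ^ 4 * ‖deriv K z‖ := by
    calc d ^ 4 * ((3 / 4) ^ 4 * ‖deriv K w‖) = (3 / 4 * d) ^ 4 * ‖deriv K w‖ := by ring
      _ ≤ _ := h3
  have h6 := le_of_mul_le_mul_left h5 h4
  have h7 := norm_nonneg (deriv K w)
  nlinarith

/-- HYP. -/
theorem hHyp (hD3 : StD3) : StHyp := by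
  intro C c hC hc
  obtain ⟨n, hn⟩ := exists_nat_gt (8 * C / c)
  have hn0 : (0 : ℝ) < n := lt_trans (by positivity) hn
  refine ⟨4 ^ n, by positivity, ?_⟩
  intro K ξ z w u hK hu hzξ hwξ hz hw
  have hzw : ‖w - z‖ ≤ 2 * C * u := by
    calc ‖w - z‖ = ‖(w - ξ) - (z - ξ)‖ := by rw [sub_sub_sub_cancel_right]
      _ ≤ ‖w - ξ‖ + ‖z - ξ‖ := norm_sub_le _ _
      _ ≤ 2 * C * u := by linarith
  have hstep : ‖w - z‖ / n ≤ c * u / 4 := by
    rw [div_le_iff₀ hn0]
    rw [div_lt_iff₀ hc] at hn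
    have : 2 * C * u ≤ c * u / 4 * n := by nlinarith
    linarith
  have hpt : ∀ i : ℕ, i ≤ n → c * u ≤ 1 - ‖z + ((i / n : ℝ) : ℂ) * (w - z)‖ := by
    intro i hi
    have ht0 : (0 : ℝ) ≤ i / n := by positivity
    have ht1 : (i / n : ℝ) ≤ 1 := by
      rw [div_le_one hn0]
      exact_mod_cast hi
    have h1 : z + ((i / n : ℝ) : ℂ) * (w - z) =
        ((1 - i / n : ℝ) : ℂ) * z + ((i / n : ℝ) : ℂ) * w := by
      push_cast
      ring
    have h2 : ‖z + ((i / n : ℝ) : ℂ) * (w - z)‖ ≤ (1 - i / n) * ‖z‖ + (i / n) * ‖w‖ := by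
      rw [h1]
      refine le_trans (norm_add_le _ _) ?_
      rw [norm_mul, norm_mul, Complex.norm_of_nonneg ht0, Complex.norm_of_nonneg (by linarith)]
    nlinarith
  have hind : ∀ i : ℕ, i ≤ n →
      ‖deriv K (z + ((i / n : ℝ) : ℂ) * (w - z))‖ ≤ 4 ^ i * ‖deriv K z‖ := by
    intro i
    induction i with
    | zero => intro _; simp
    | succ i ih =>
      intro hi
      have h1 := ih (by omega)
      have h2 := hyp_step hD3 K (z + ((i / n : ℝ) : ℂ) * (w - z))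
        (z + (((i + 1 : ℕ) / n : ℝ) : ℂ) * (w - z)) (c * u) hK (by positivity)
        (hpt i (by omega)) (by
          have e : z + (((i + 1 : ℕ) / n : ℝ) : ℂ) * (w - z) -
              (z + ((i / n : ℝ) : ℂ) * (w - z)) = ((1 / n : ℝ) : ℂ) * (w - z) := by
            push_cast
            ring
          rw [e, norm_mul, Complex.norm_of_nonneg (by positivity), one_div, inv_mul_eq_div]
          exact hstep)
      calc _ ≤ _ := h2
        _ ≤ 4 * (4 ^ i * ‖deriv K z‖) := by linarith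
        _ = 4 ^ (i + 1) * ‖deriv K z‖ := by ring
  have h := hind n le_rfl
  rwa [div_self hn0.ne', Complex.ofReal_one, one_mul, add_sub_cancel] at h

end Pool.Agent.Helper29.SR
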