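import Pool.Agent.Helper5.SR.St1

/-!
# Project SR (MP_d6acc2_an), module KK1: star-like function in the logarithmic coordinate
-/

set_option autoImplicit false

namespace Pool.Agent.Helper29.SR

open Complex Metric Set Helper5.SR Pool.Agent.Helper51.LT
open scoped Real
open Pool.Agent.Helper60.Rel (LH)

theorem elt {x : ℝ} (h : x < 0) : Real.exp x < 1 := by
  rw [← Real.exp_zero]
  exact Real.exp_lt_exp.2 h

theorem half_add_re {u : ℂ} {ρ : ℝ} (hu : ‖u‖ ≤ ρ) (hρ : ρ < 1) :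
    (1 - ρ) / 4 ≤ 1 / 2 + (u / (1 - u)).re := by
  have hr0 := norm_nonneg u
  have hne : (1 : ℂ) - u ≠ 0 := by
    intro h
    have : u = 1 := (sub_eq_zero.1 h).symm
    rw [this, norm_one] at hu
    linarith
  have e1 : u / (1 - u) = (1 - u)⁻¹ - 1 := by
    field_simp
    ring
  have hN : normSq (1 - u) = 1 - 2 * u.re + ‖u‖ ^ 2 := by
    rw [← Complex.normSq_eq_norm_sq, Complex.normSq_apply, Complex.normSq_apply]
    simp
    ring
  have hNpos : 0 < normSq (1 - u) := Complex.normSq_pos.2 hne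
  have hNle : normSq (1 - u) ≤ (1 + ‖u‖) ^ 2 := by
    rw [Complex.normSq_eq_norm_sq]
    refine pow_le_pow_left₀ (norm_nonneg _) ?_ 2
    calc ‖1 - u‖ ≤ ‖(1 : ℂ)‖ + ‖u‖ := norm_sub_le _ _
      _ = _ := by rw [norm_one]
  have e2 : (u / (1 - u)).re = (1 - u.re) / normSq (1 - u) - 1 := by
    rw [e1, Complex.sub_re, Complex.inv_re]
    simp
  have h3 : (1 - ρ) / 4 + 1 / 2 ≤ (1 - u.re) / normSq (1 - u) := by
    rw [le_div_iff₀ hNpos]
    have h4 : (1 - ρ) / 4 * normSq (1 - u) ≤ (1 - ρ) / 4 * (1 + ‖u‖) ^ 2 :=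
      mul_le_mul_of_nonneg_left hNle (by linarith)
    have h5 : (1 - ρ) / 4 * (1 + ‖u‖) ^ 2 ≤ (1 - ‖u‖ ^ 2) / 2 := by
      have h6 : (1 - ρ) * (1 + ‖u‖) ≤ 2 * (1 - ‖u‖) := by nlinarith
      nlinarith
    have h7 : normSq (1 - u) = 1 - 2 * u.re + ‖u‖ ^ 2 := hN
    nlinarith
  rw [e2]
  linarith

theorem norm_u (ζ : ℂ) (θ : ℝ) : ‖exp (ζ - θ * I)‖ = Real.exp ζ.re := by
  rw [Complex.norm_exp]
  simp

/-- the derivative -/
noncomputable def kd {ι : Type} (Λ : Finset ι) (θ p : ι → ℝ) (ζ : ℂ) : ℂ :=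
  1 + ∑ l ∈ Λ, (p l : ℂ) * (exp (ζ - θ l * I) / (1 - exp (ζ - θ l * I)))

theorem kk_hasDerivAt {ι : Type} (Λ : Finset ι) (θ p : ι → ℝ) (ζ : ℂ) (hζ : ζ.re < 0) :
    HasDerivAt (kk Λ θ p) (kd Λ θ p ζ) ζ := by
  have hterm : ∀ l ∈ Λ, HasDerivAt (fun ζ : ℂ => (p l : ℂ) * Complex.log (1 - exp (ζ - θ l * I)))
      (-((p l : ℂ) * (exp (ζ - θ l * I) / (1 - exp (ζ - θ l * I))))) ζ := by
    intro l _
    have h1 : HasDerivAt (fun ζ : ℂ => 1 - exp (ζ - θ l * I)) (-(exp (ζ - θ l * I) * 1)) ζ :=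
      (((hasDerivAt_id ζ).sub_const _).cexp).const_sub 1
    have h2 : (1 : ℂ) - exp (ζ - θ l * I) ∈ slitPlane := by
      rw [sub_eq_add_neg]
      refine Complex.mem_slitPlane_of_norm_lt_one ?_
      rw [norm_neg, norm_u]
      exact elt hζ
    have h3 := (h1.clog h2).const_mul (p l : ℂ)
    rw [mul_one, neg_div, mul_neg] at h3
    exact h3
  have h := (hasDerivAt_id ζ).sub (HasDerivAt.fun_sum hterm)
  have e : (1 : ℂ) - ∑ l ∈ Λ, (-((p l : ℂ) * (exp (ζ - θ l * I) / (1 - exp (ζ - θ l * I))))) =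
      kd Λ θ p ζ := by
    rw [kd, Finset.sum_neg_distrib, sub_neg_eq_add]
  rw [e] at h
  exact h

theorem kd_re {ι : Type} (Λ : Finset ι) (θ p : ι → ℝ) (hp : ∀ l ∈ Λ, 0 < p l)
    (hs : ∑ l ∈ Λ, p l = 2) (d : ℝ) (hd : 0 < d) (ζ : ℂ) (hζ : ζ.re ≤ -d) :
    (1 - Real.exp (-d)) / 2 ≤ (kd Λ θ p ζ).re := by
  have hρ : Real.exp (-d) < 1 := elt (by linarith)
  have h1 : ∀ l ∈ Λ, p l * ((1 - Real.exp (-d)) / 4) ≤
      p l * (1 / 2 + (exp (ζ - θ l * I) / (1 - exp (ζ - θ l * I))).re) := by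
    intro l hl
    refine mul_le_mul_of_nonneg_left (half_add_re ?_ hρ) (hp l hl).le
    rw [norm_u]
    exact Real.exp_le_exp.2 hζ
  have h2 := Finset.sum_le_sum h1
  rw [← Finset.sum_mul, hs] at h2
  simp only [mul_add] at h2
  rw [Finset.sum_add_distrib, ← Finset.sum_mul, hs] at h2
  have e : (kd Λ θ p ζ).re =
      1 + ∑ l ∈ Λ, p l * (exp (ζ - θ l * I) / (1 - exp (ζ - θ l * I))).re := by
    rw [kd, Complex.add_re, Complex.one_re, Complex.re_sum]
    simp only [Complex.re_ofReal_mul]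
  rw [e]
  linarith

theorem inj_of_deriv_re_pos (f f' : ℂ → ℂ) (hf : ∀ ζ ∈ LH, HasDerivAt f (f' ζ) ζ)
    (hpos : ∀ ζ ∈ LH, 0 < (f' ζ).re) : InjOn f LH := by
  intro a ha b hb hab
  by_contra hne
  have hba : b - a ≠ 0 := sub_ne_zero.2 (Ne.symm hne)
  have hmem : ∀ t : ℝ, 0 ≤ t → t ≤ 1 → a + t * (b - a) ∈ LH := by
    intro t h0 h1
    have ha' : a.re < 0 := ha
    have hb' : b.re < 0 := hb
    have e : (a + t * (b - a)).re = (1 - t) * a.re + t * b.re := by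
      simp
      ring
    change (a + t * (b - a)).re < 0
    rw [e]
    rcases h0.eq_or_lt with h | h
    · rw [← h]
      linarith
    · nlinarith
  have hder : ∀ t : ℝ, 0 ≤ t → t ≤ 1 →
      HasDerivAt (fun t : ℝ => (f (a + t * (b - a)) / (b - a)).re)
        (f' (a + t * (b - a))).re t := by
    intro t h0 h1
    have h2 : HasDerivAt (fun t : ℝ => a + (t : ℂ) * (b - a)) (b - a) t := by
      have h3 := ((Complex.ofRealCLM.hasDerivAt (x := t)).mul_const (b - a)).const_add a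
      simpa using h3
    have h4 := (HasDerivAt.comp t (hf _ (hmem t h0 h1)) h2).div_const (b - a)
    have h5 : f' (a + t * (b - a)) * (b - a) / (b - a) = f' (a + t * (b - a)) := by
      field_simp
    rw [h5] at h4
    exact Complex.reCLM.hasFDerivAt.comp_hasDerivAt t h4
  obtain ⟨c, hc, hc0⟩ := exists_hasDerivAt_eq_zero (f := fun t : ℝ => (f (a + t * (b - a)) / (b - a)).re)
    (f' := fun t : ℝ => (f' (a + t * (b - a))).re) (a := 0) (b := 1) one_pos
    (fun t ht => (hder t ht.1 ht.2).continuousAt.continuousWithinAt)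
    (by simp [hab]) (fun t ht => hder t ht.1.le ht.2.le)
  exact (hpos _ (hmem c hc.1.le hc.2.le)).ne' hc0

/-- KK1. -/
theorem hKK1 : StKK1 := by
  intro ι Λ θ p hp hs
  have hder : ∀ ζ ∈ LH, HasDerivAt (kk Λ θ p) (kd Λ θ p ζ) ζ := fun ζ hζ =>
    kk_hasDerivAt Λ θ p ζ hζ
  have hpos : ∀ ζ ∈ LH, 0 < (kd Λ θ p ζ).re := by
    intro ζ hζ
    have hζ' : ζ.re < 0 := hζ
    have h1 := kd_re Λ θ p hp hs (-ζ.re) (by linarith) ζ (by linarith)
    have h2 : Real.exp (- -ζ.re) < 1 := elt (by linarith)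
    linarith
  refine ⟨fun ζ hζ => (hder ζ hζ).differentiableAt.differentiableWithinAt,
    inj_of_deriv_re_pos _ _ hder hpos, ?_, ?_, ?_⟩
  · intro ζ _
    rw [kk, kk]
    have e : ∀ l, exp (ζ + 2 * π * I - θ l * I) = exp (ζ - θ l * I) := by
      intro l
      rw [show ζ + 2 * π * I - θ l * I = (ζ - θ l * I) + 2 * π * I by ring]
      exact Complex.exp_periodic _
    simp only [e]
    ring
  · intro ζ hζ
    rw [(hder ζ hζ).deriv]
    exact hpos ζ hζ
  · intro d hd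
    have hρ : Real.exp (-d) < 1 := elt (by linarith)
    have hρ0 := Real.exp_pos (-d)
    have hinv : 0 < (1 - Real.exp (-d))⁻¹ := inv_pos.2 (by linarith)
    refine ⟨3 + 3 * (1 - Real.exp (-d))⁻¹, (1 - Real.exp (-d)) / 2, by positivity, by linarith, ?_⟩
    intro ζ hζ
    have hζ0 : ζ ∈ LH := by
      change ζ.re < 0
      linarith
    have hu : ∀ l, ‖exp (ζ - θ l * I)‖ ≤ Real.exp (-d) := by
      intro l
      rw [norm_u]
      exact Real.exp_le_exp.2 hζ
    have he0 := Real.exp_pos ζ.re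
    have he1 : Real.exp ζ.re ≤ Real.exp (-d) := Real.exp_le_exp.2 hζ
    have hinv2 : (1 - Real.exp ζ.re)⁻¹ ≤ (1 - Real.exp (-d))⁻¹ :=
      inv_anti₀ (by linarith) (by linarith)
    have hinv3 : 0 < (1 - Real.exp ζ.re)⁻¹ := inv_pos.2 (by linarith)
    refine ⟨?_, ?_, ?_⟩
    · have h1 : kk Λ θ p ζ - ζ = -∑ l ∈ Λ, (p l : ℂ) * Complex.log (1 - exp (ζ - θ l * I)) := by
        rw [kk]
        ring
      rw [h1, norm_neg]
      have h2 : ∀ l ∈ Λ, ‖(p l : ℂ) * Complex.log (1 - exp (ζ - θ l * I))‖ ≤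
          p l * (Real.exp ζ.re * (1 + (1 - Real.exp (-d))⁻¹)) := by
        intro l hl
        rw [norm_mul, Complex.norm_of_nonneg (hp l hl).le]
        refine mul_le_mul_of_nonneg_left ?_ (hp l hl).le
        have h3 := Complex.norm_log_one_add_le (z := -exp (ζ - θ l * I)) (by
          rw [norm_neg]
          exact lt_of_le_of_lt (hu l) hρ)
        rw [norm_neg, norm_u, ← sub_eq_add_neg] at h3
        refine h3.trans ?_
        have h4 : Real.exp ζ.re ^ 2 * (1 - Real.exp ζ.re)⁻¹ ≤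
            Real.exp ζ.re * (1 - Real.exp (-d))⁻¹ := by
          rw [sq, mul_assoc]
          refine mul_le_mul_of_nonneg_left ?_ he0.le
          calc Real.exp ζ.re * (1 - Real.exp ζ.re)⁻¹ ≤ 1 * (1 - Real.exp ζ.re)⁻¹ :=
                mul_le_mul_of_nonneg_right (by linarith) hinv3.le
            _ ≤ _ := by rw [one_mul]; exact hinv2
        have h5 : 0 ≤ Real.exp ζ.re * (1 - Real.exp (-d))⁻¹ := by positivity
        linarith
      calc ‖∑ l ∈ Λ, (p l : ℂ) * Complex.log (1 - exp (ζ - θ l * I))‖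
          ≤ ∑ l ∈ Λ, p l * (Real.exp ζ.re * (1 + (1 - Real.exp (-d))⁻¹)) :=
            (norm_sum_le _ _).trans (Finset.sum_le_sum h2)
        _ = 2 * (Real.exp ζ.re * (1 + (1 - Real.exp (-d))⁻¹)) := by
            rw [← Finset.sum_mul, hs]
        _ ≤ _ := by nlinarith [mul_pos he0 hinv]
    · rw [(hder ζ hζ0).deriv, kd]
      have h2 : ∀ l ∈ Λ, ‖(p l : ℂ) * (exp (ζ - θ l * I) / (1 - exp (ζ - θ l * I)))‖ ≤
          p l * (1 - Real.exp (-d))⁻¹ := by
        intro l hl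
        rw [norm_mul, Complex.norm_of_nonneg (hp l hl).le, norm_div]
        refine mul_le_mul_of_nonneg_left ?_ (hp l hl).le
        have h3 : 1 - Real.exp (-d) ≤ ‖1 - exp (ζ - θ l * I)‖ := by
          have h4 := norm_sub_norm_le (1 : ℂ) (exp (ζ - θ l * I))
          rw [norm_one] at h4
          linarith [hu l]
        rw [div_eq_mul_inv]
        calc ‖exp (ζ - θ l * I)‖ * ‖1 - exp (ζ - θ l * I)‖⁻¹
            ≤ 1 * (1 - Real.exp (-d))⁻¹ :=
              mul_le_mul (by linarith [hu l]) (inv_anti₀ (by linarith) h3)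
                (inv_nonneg.2 (norm_nonneg _)) zero_le_one
          _ = _ := one_mul _
      calc ‖1 + ∑ l ∈ Λ, (p l : ℂ) * (exp (ζ - θ l * I) / (1 - exp (ζ - θ l * I)))‖
          ≤ ‖(1 : ℂ)‖ + ∑ l ∈ Λ, p l * (1 - Real.exp (-d))⁻¹ := by
            refine (norm_add_le _ _).trans (add_le_add le_rfl ?_)
            exact (norm_sum_le _ _).trans (Finset.sum_le_sum h2)
        _ = 1 + 2 * (1 - Real.exp (-d))⁻¹ := by rw [← Finset.sum_mul, hs, norm_one]
        _ ≤ _ := by linarith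
    · rw [(hder ζ hζ0).deriv]
      exact kd_re Λ θ p hp hs d hd ζ hζ

end Pool.Agent.Helper29.SR
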